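import Pool.Agent.Helper353.SQ.Main

set_option autoImplicit false

namespace Pool.Agent.Results.MP_d0c231_co.FifteenThirtySeconds

open scoped Pointwise

/-- The set `S(A)` of the integers `m ≤ n` that can be written as `m = a + a'` with `a, a' ∈ A`
(`a = a'` is allowed). -/
def S (n : ℕ) (A : Finset ℕ) : Finset ℕ := (A + A).filter (· ≤ n)

/-- `f n` is the maximum of `|S(A)|` over all sets `A` of exactly `⌊√n⌋` integers in `[1, n]`. -/
def f (n : ℕ) : ℕ :=
  ((Finset.Icc 1 n).powersetCard (Nat.sqrt n)).sup fun A => (S n A).card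

/-- For all sufficiently large `n` one has `f(n) ≥ (15/32) n`. -/
theorem result : ∀ᶠ n : ℕ in Filter.atTop, (15 / 32 : ℝ) * n ≤ f n :=
  SQ.main

end Pool.Agent.Results.MP_d0c231_co.FifteenThirtySeconds
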